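import Pool.Agent.Y6.S.Stm

/-!
Job SK-KB of the project SK: the bilinear estimate (helper261).
-/

open Set Filter Topology

set_option autoImplicit false

namespace Pool.Agent.Y261.SK

open Pool.Agent.Y5.D Pool.Agent.Y5.E Pool.Agent.Y5.F Pool.Agent.Y8.EP Pool.Agent.Y710.EP

variable {J : Type} {g : J → ℕ} {κ μ lam Λ M : ℝ} {L C ℓ : ℕ → ℝ} {B : ℕ → ℕ → ℝ}
  {c : Ix J → Ix J → Ix J → ℝ}

/-- both fields low: the general estimate, with different bounds of the two fields -/
theorem EAg (hK : Ker g Λ M L C B c) (hs : Sq5 κ μ lam Λ M L C ℓ B) {α β γ : Ix J → ℝ}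
    (hα : Nice g L α) (hβ : Nice g L β) (hγ : Nice g L γ) {n : ℕ}
    (h1 : InG g (n + 1) α) (h : InLow g (n + 1) β) (h2 : InLow g (n + 1) γ) {b b' : ℕ → ℝ}
    (hb : ∀ p, nm (Pg g p β) ≤ b p) (hb' : ∀ p, nm (Pg g p γ) ≤ b' p) :
    |tl c α β γ| ≤ M * (nm α * (L n * (∑ p ∈ Finset.range (n + 1), (Λ / lam) ^ (n - p) * b p)
      * b' n)) + M * (nm α * (L n * (∑ p ∈ Finset.range (n + 1), (Λ / lam) ^ (n - p) * b' p)
      * b n)) := by
  have hb0 : ∀ p, 0 ≤ b p := fun p => (nm_nn _).trans (hb p)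
  have hb0' : ∀ p, 0 ≤ b' p := fun p => (nm_nn _).trans (hb' p)
  have e1 : tl c α β γ = tl c α β (Pg g n γ) + tl c α (Pg g n β) (Pl g n γ) := by
    have e2 : tl c α β γ = tl c α β (fun a => Pg g n γ a + Pl g n γ a) := by
      refine tl_congr fun i a b _ => ?_
      congr 1
      unfold Pg Pl
      by_cases h3 : n + 1 ≤ gr g b
      · rw [h2 b h3]; simp
      · by_cases h4 : gr g b = n
        · rw [if_pos h4, if_neg (by omega), add_zero]
        · rw [if_neg h4, if_pos (by omega), zero_add]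
    rw [e2, tl_add3 hK hs hα hβ (hγ.pg hs n) (hγ.pl hs n)]
    congr 1
    refine tl_congr fun i a b hc => ?_
    unfold Pg Pl
    by_cases h3 : gr g a = n
    · rw [if_pos h3]
    · rw [if_neg h3]
      by_cases h4 : gr g b < n
      · by_cases h5 : gr g i = n + 1
        · by_cases h6 : n + 1 ≤ gr g a
          · rw [h a h6]
          · have := (hK.near _ _ _ hc).1
            omega
        · rw [h1 i h5]; ring
      · rw [if_neg h4]; ring
  rw [e1]
  refine (abs_add_le _ _).trans ?_
  set A := ∑ p ∈ Finset.range (n + 1), (Λ / lam) ^ (n - p) * b p with hA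
  set A' := ∑ p ∈ Finset.range (n + 1), (Λ / lam) ^ (n - p) * b' p with hA'
  have hA0 : 0 ≤ A := Finset.sum_nonneg fun p _ => mul_nonneg (pow_nonneg (ρ_nn hs) _) (hb0 p)
  have hA0' : 0 ≤ A' := Finset.sum_nonneg fun p _ => mul_nonneg (pow_nonneg (ρ_nn hs) _) (hb0' p)
  have h5 := nm_nn α
  have h7 := M_nn hs
  have h8 := L_nn hs n
  have t1 : |tl c α β (Pg g n γ)| ≤ M * (nm α * (L n * A * b' n)) := by
    refine (E2 hK hs hα hβ (hγ.pg hs n) (s := Finset.range (n + 1))
      (fun a ha => h a (by simpa using ha)) h1 (Pg_in n γ) (b := b) (fun p _ => hb p)).trans ?_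
    have h4 : ∑ p ∈ Finset.range (n + 1), om Λ M L (n + 1) p n * b p ≤ M * (L n * A) := by
      rw [hA, Finset.mul_sum, Finset.mul_sum]
      refine Finset.sum_le_sum fun p hp => ?_
      rw [Finset.mem_range] at hp
      have e : om Λ M L (n + 1) p n = M * (L p * Λ ^ (n - p)) := by
        unfold om
        rw [min_eq_right (by omega), if_pos (by omega)]
        ring
      rw [e]
      have h5 := LΛ hs (show p ≤ n by omega)
      calc M * (L p * Λ ^ (n - p)) * b p ≤ M * (L n * (Λ / lam) ^ (n - p)) * b p := by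
            have := hb0 p
            gcongr
        _ = _ := by ring
    have h6 := hb' n
    have h9 := hb0' n
    have h10 := nm_nn (Pg g n γ)
    calc nm α * (∑ p ∈ Finset.range (n + 1), om Λ M L (n + 1) p n * b p) * nm (Pg g n γ)
        ≤ nm α * (M * (L n * A)) * b' n := by gcongr
      _ = _ := by ring
  have t2 : |tl c α (Pg g n β) (Pl g n γ)| ≤ M * (nm α * (L n * A' * b n)) := by
    have hlow : ∀ a, gr g a ∉ Finset.range (n + 1) → Pl g n γ a = 0 := fun a ha => by
      unfold Pl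
      rw [if_neg]
      have : ¬ gr g a < n + 1 := by simpa using ha
      omega
    refine (E3 hK hs hα (hβ.pg hs n) (hγ.pl hs n) (s := Finset.range (n + 1)) hlow h1 (Pg_in n β)
      (b := b') (fun q _ => ?_)).trans ?_
    · refine le_trans ?_ (hb' q)
      refine nm_mono hs (hγ.pg hs q) fun a => ?_
      unfold Pg Pl
      split_ifs
      exacts [le_rfl, by simp, le_rfl]
    · have h4 : ∑ q ∈ Finset.range (n + 1), om Λ M L (n + 1) n q * b' q ≤ M * (L n * A') := by
        rw [hA', Finset.mul_sum, Finset.mul_sum]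
        refine Finset.sum_le_sum fun q hq => ?_
        rw [Finset.mem_range] at hq
        have e : om Λ M L (n + 1) n q ≤ M * L q := by
          have := om_le hs (n + 1) n q
          rwa [min_eq_right (by omega)] at this
        have h5 := Lρ hs (show q ≤ n by omega)
        calc om Λ M L (n + 1) n q * b' q ≤ M * (L n * (Λ / lam) ^ (n - q)) * b' q := by
              have := hb0' q
              gcongr
              exact e.trans (by gcongr)
          _ = _ := by ring
      have h6 := hb n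
      have h9 := hb0 n
      have h10 := nm_nn (Pg g n β)
      have h11 : 0 ≤ ∑ q ∈ Finset.range (n + 1), om Λ M L (n + 1) n q * b' q :=
        Finset.sum_nonneg fun q _ => mul_nonneg (om_nn hs _ _ _) (hb0' q)
      calc nm α * nm (Pg g n β) * (∑ q ∈ Finset.range (n + 1), om Λ M L (n + 1) n q * b' q)
          ≤ nm α * b n * (M * (L n * A')) := by gcongr
        _ = _ := by ring
  exact add_le_add t1 t2

/-- the right side -/
noncomputable def XX (g : J → ℕ) (Λ lam : ℝ) (β γ : Ix J → ℝ) (b b' : ℕ → ℝ) (n : ℕ) : ℝ :=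
  (sA (Λ / lam) b n + nm (Pu g n β)) * (nm (Pu g n γ) + if n = 0 then 0 else b' (n - 1))
      + (sA (Λ / lam) b' n + nm (Pu g n γ)) * (nm (Pu g n β) + if n = 0 then 0 else b (n - 1))

theorem XX_nn (hs : Sq5 κ μ lam Λ M L C ℓ B) {β γ : Ix J → ℝ} {b b' : ℕ → ℝ}
    (hb : ∀ p, 0 ≤ b p) (hb' : ∀ p, 0 ≤ b' p) (n : ℕ) : 0 ≤ XX g Λ lam β γ b b' n := by
  have h1 := sA_nn hs hb n
  have h2 := sA_nn hs hb' n
  have h3 := nm_nn (Pu g n β)
  have h4 := nm_nn (Pu g n γ)
  have h5 : 0 ≤ (if n = 0 then 0 else b (n - 1)) := by split_ifs; exacts [le_rfl, hb _]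
  have h6 : 0 ≤ (if n = 0 then 0 else b' (n - 1)) := by split_ifs; exacts [le_rfl, hb' _]
  unfold XX
  positivity

/-- output in one group -/
theorem one (hK : Ker g Λ M L C B c) (hs : Sq5 κ μ lam Λ M L C ℓ B) {α β γ : Ix J → ℝ}
    (hα : Nice g L α) (hβ : Nice g L β) (hγ : Nice g L γ) {n : ℕ} (h1 : InG g n α)
    {b b' : ℕ → ℝ} (hb : ∀ p, nm (Pg g p β) ≤ b p) (hb' : ∀ p, nm (Pg g p γ) ≤ b' p) :
    |tl c α β γ| ≤ 3 * M * nm α * (L n * XX g Λ lam β γ b b' n) := by
  have hb0 : ∀ p, 0 ≤ b p := fun p => (nm_nn _).trans (hb p)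
  have hb0' : ∀ p, 0 ≤ b' p := fun p => (nm_nn _).trans (hb' p)
  have hM := M_nn hs
  have hL := L_nn hs n
  have hna := nm_nn α
  have hU := nm_nn (Pu g n β)
  have hU' := nm_nn (Pu g n γ)
  have hA := sA_nn hs hb0 n
  have hA' := sA_nn hs hb0' n
  obtain ⟨Zb, hZb⟩ : ∃ Zb : ℝ, Zb = if n = 0 then 0 else b (n - 1) := ⟨_, rfl⟩
  obtain ⟨Zb', hZb'⟩ : ∃ Zb' : ℝ, Zb' = if n = 0 then 0 else b' (n - 1) := ⟨_, rfl⟩
  have hZ0 : 0 ≤ Zb := by rw [hZb]; split_ifs; exacts [le_rfl, hb0 _]
  have hZ0' : 0 ≤ Zb' := by rw [hZb']; split_ifs; exacts [le_rfl, hb0' _]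
  rw [tl_four hK hs hα hβ hγ n]
  have b1 := EB hK hs hα hβ hγ h1 (b := b) hb
  have c1 := EC hK hs hα hβ hγ h1 (b := b') hb'
  have d1 := ED hK hs hα (hβ.pu hs n) (hγ.pu hs n) h1 (Pu_in n _) (Pu_in n _)
  have c2 := sU_le hs (b := b') hb0' n
  change _ ≤ 2 * (M * (nm α * (L n * sA (Λ / lam) b n) * nm (Pu g n γ))) at b1
  change _ ≤ 2 * (M * (nm α * nm (Pu g n β) * sU L b' n)) at c1
  have a1 : |tl c α (Pl g n β) (Pl g n γ)| ≤ M * (nm α * (L n * (sA (Λ / lam) b n * Zb'))) +
      M * (nm α * (L n * (sA (Λ / lam) b' n * Zb))) := by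
    cases n with
    | zero =>
      have h0 : ∀ y : Ix J → ℝ, ∀ a, Pl g 0 y a = 0 := fun y a => if_neg (by omega)
      have e1 : tl c α (Pl g 0 β) (Pl g 0 γ) = 0 := tl_zero fun i a b _ => by rw [h0]; ring
      rw [e1, abs_zero]
      positivity
    | succ n =>
      have e := EAg hK hs hα (hβ.pl hs _) (hγ.pl hs _) h1 (Pl_in _ _) (Pl_in _ _) (b := b)
        (b' := b') (fun p => (pg_pl_le hs hβ p _).trans (hb p))
        (fun p => (pg_pl_le hs hγ p _).trans (hb' p))
      change _ ≤ M * (nm α * (L n * sA (Λ / lam) b (n + 1) * b' n)) +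
        M * (nm α * (L n * sA (Λ / lam) b' (n + 1) * b n)) at e
      have hLL : L n ≤ L (n + 1) := L_mono hs (by omega)
      have hLn := L_nn hs n
      have z1 : Zb = b n := by rw [hZb, if_neg (by omega)]; rfl
      have z2 : Zb' = b' n := by rw [hZb', if_neg (by omega)]; rfl
      rw [z1, z2]
      have k1 := hb0 n
      have k2 := hb0' n
      refine e.trans (add_le_add ?_ ?_)
      · rw [mul_assoc (L n)]
        gcongr
      · rw [mul_assoc (L n)]
        gcongr
  have c3 : 2 * (M * (nm α * nm (Pu g n β) * sU L b' n)) ≤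
      2 * (M * (nm α * nm (Pu g n β) * (L n * sA (Λ / lam) b' n))) := by gcongr
  have hX : XX g Λ lam β γ b b' n = (sA (Λ / lam) b n + nm (Pu g n β)) * (nm (Pu g n γ) + Zb')
      + (sA (Λ / lam) b' n + nm (Pu g n γ)) * (nm (Pu g n β) + Zb) := by
    rw [XX, hZb, hZb']
  rw [hX]
  generalize sA (Λ / lam) b n = A at *
  generalize sA (Λ / lam) b' n = A' at *
  generalize nm (Pu g n β) = U at *
  generalize nm (Pu g n γ) = U' at *
  generalize nm α = a at *
  generalize L n = l at *
  have p1 : 0 ≤ M * (a * (l * (A * Zb'))) := by positivity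
  have p2 : 0 ≤ M * (a * (l * (A' * Zb))) := by positivity
  have p3 : 0 ≤ M * (a * (l * (A * U'))) := by positivity
  have p4 : 0 ≤ M * (a * (l * (A' * U))) := by positivity
  have p5 : 0 ≤ M * (a * (l * (U * U'))) := by positivity
  have p6 : 0 ≤ M * (a * (l * (U * Zb'))) := by positivity
  have p7 : 0 ≤ M * (a * (l * (U' * Zb))) := by positivity
  have q : 3 * M * a * (l * ((A + U) * (U' + Zb') + (A' + U') * (U + Zb))) =
      3 * (M * (a * (l * (A * Zb')))) + 3 * (M * (a * (l * (A' * Zb)))) +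
      3 * (M * (a * (l * (A * U')))) + 3 * (M * (a * (l * (A' * U)))) +
      6 * (M * (a * (l * (U * U')))) + 3 * (M * (a * (l * (U * Zb')))) +
      3 * (M * (a * (l * (U' * Zb)))) := by ring
  rw [q]
  have r1 : 2 * (M * (a * (l * A) * U')) = 2 * (M * (a * (l * (A * U')))) := by ring
  have r2 : 2 * (M * (a * U * (l * A'))) = 2 * (M * (a * (l * (A' * U)))) := by ring
  rw [r1] at b1
  rw [r2] at c3
  have := abs_le.1 a1
  have := abs_le.1 b1
  have := abs_le.1 (c1.trans c3)
  have := abs_le.1 d1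
  rw [abs_le]
  constructor <;> linarith

theorem t_KB : Pool.Agent.Y6.S.S_KB := by
  intro J g κ μ lam Λ M L C ℓ B c hK hs
  have hM := M_nn hs
  have hM1 := hs.M_one
  have hlam := lam_one hs
  refine ⟨15 * M * lam, by nlinarith, ?_⟩
  intro n α β γ b b' hα hβ hγ hsup hb hb'
  have hb0 : ∀ p, 0 ≤ b p := fun p => (nm_nn _).trans (hb p)
  have hb0' : ∀ p, 0 ≤ b' p := fun p => (nm_nn _).trans (hb' p)
  have hna := nm_nn α
  have hL := L_nn hs n
  have hX0 := XX_nn (g := g) hs (β := β) (γ := γ) hb0 hb0' n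
  change |tl c α β γ| ≤ 15 * M * lam * nm α * (L n * XX g Λ lam β γ b b' n)
  rcases hsup with h1 | ⟨he, h1⟩
  · refine (one hK hs hα hβ hγ h1 hb hb').trans ?_
    have : 3 * M ≤ 15 * M * lam := by nlinarith
    gcongr
  · -- the double group
    have e1 : ∀ a, α a = Pg g n α a + Pg g (n + 1) α a := by
      intro a
      unfold Pg
      by_cases h2 : gr g a = n
      · rw [if_pos h2, if_neg (by omega), add_zero]
      · by_cases h3 : gr g a = n + 1
        · rw [if_neg h2, if_pos h3, zero_add]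
        · rw [if_neg h2, if_neg h3, add_zero]
          exact h1 a (by omega)
    rw [tl_c1 hK hs (hα.pg hs n) (hα.pg hs (n + 1)) hβ hγ e1]
    refine (abs_add_le _ _).trans ?_
    have hle : ∀ p, nm (Pg g p α) ≤ nm α := fun p => nm_mono hs hα (Pg_le p α)
    have t1 : |tl c (Pg g n α) β γ| ≤ 3 * M * nm α * (L n * XX g Λ lam β γ b b' n) := by
      refine (one hK hs (hα.pg hs n) hβ hγ (Pg_in n α) hb hb').trans ?_
      have := hle n
      gcongr
    have t2 : |tl c (Pg g (n + 1) α) β γ| ≤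
        12 * M * lam * nm α * (L n * XX g Λ lam β γ b b' n) := by
      refine (one hK hs (hα.pg hs (n + 1)) hβ hγ (Pg_in (n + 1) α)
        (b := fun p => nm (Pg g p β)) (b' := fun p => nm (Pg g p γ)) (fun p => le_rfl)
        (fun p => le_rfl)).trans ?_
      have hpu : ∀ z : Ix J → ℝ, Nice g L z → nm (Pg g n z) ≤ nm (Pu g n z) := by
        intro z hz
        refine nm_mono hs (hz.pu hs n) fun a => ?_
        unfold Pg Pu
        by_cases h2 : gr g a = n
        · rw [if_pos h2, if_pos (by omega)]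
        · rw [if_neg h2, abs_zero]
          exact abs_nonneg _
      have hsA : ∀ (z : Ix J → ℝ) (d : ℕ → ℝ), Nice g L z → (∀ p, nm (Pg g p z) ≤ d p) →
          sA (Λ / lam) (fun p => nm (Pg g p z)) (n + 1) ≤ sA (Λ / lam) d n + nm (Pu g n z) := by
        intro z d hz hd
        have hd0 : ∀ p, 0 ≤ d p := fun p => (nm_nn _).trans (hd p)
        unfold sA
        rw [Finset.sum_range_succ]
        refine add_le_add (Finset.sum_le_sum fun p hp => ?_) ?_
        · rw [Finset.mem_range] at hp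
          have h3 : (Λ / lam) ^ (n + 1 - 1 - p) ≤ (Λ / lam) ^ (n - 1 - p) :=
            ρ_pow_le hs (by omega)
          exact mul_le_mul h3 (hd p) (nm_nn _) (pow_nonneg (ρ_nn hs) _)
        · have : n + 1 - 1 - n = 0 := by omega
          rw [this, pow_zero, one_mul]
          exact hpu z hz
      have hXX : XX g Λ lam β γ (fun p => nm (Pg g p β)) (fun p => nm (Pg g p γ)) (n + 1) ≤
          4 * XX g Λ lam β γ b b' n := by
        have k1 := hsA β b hβ hb
        have k2 := hsA γ b' hγ hb'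
        have k3 := hpu β hβ
        have k4 := hpu γ hγ
        have k5 := Y_mono hs hβ (show n ≤ n + 1 by omega)
        have k6 := Y_mono hs hγ (show n ≤ n + 1 by omega)
        have k7 := sA_nn hs (b := fun p => nm (Pg g p β)) (fun p => nm_nn _) (n + 1)
        have k8 := sA_nn hs (b := fun p => nm (Pg g p γ)) (fun p => nm_nn _) (n + 1)
        have k9 := nm_nn (Pu g (n + 1) β)
        have k10 := nm_nn (Pu g (n + 1) γ)
        have k11 := nm_nn (Pg g n β)
        have k12 := nm_nn (Pg g n γ)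
        have k13 := sA_nn hs hb0 n
        have k14 := sA_nn hs hb0' n
        obtain ⟨Zb, hZb⟩ : ∃ Zb : ℝ, Zb = if n = 0 then 0 else b (n - 1) := ⟨_, rfl⟩
        obtain ⟨Zb', hZb'⟩ : ∃ Zb' : ℝ, Zb' = if n = 0 then 0 else b' (n - 1) := ⟨_, rfl⟩
        have hZ0 : 0 ≤ Zb := by rw [hZb]; split_ifs; exacts [le_rfl, hb0 _]
        have hZ0' : 0 ≤ Zb' := by rw [hZb']; split_ifs; exacts [le_rfl, hb0' _]
        unfold XX
        rw [← hZb, ← hZb', if_neg (Nat.succ_ne_zero n), if_neg (Nat.succ_ne_zero n)]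
        simp only [Nat.add_sub_cancel]
        have hU := nm_nn (Pu g n β)
        have hU' := nm_nn (Pu g n γ)
        generalize sA (Λ / lam) (fun p => nm (Pg g p β)) (n + 1) = S1 at *
        generalize sA (Λ / lam) (fun p => nm (Pg g p γ)) (n + 1) = S2 at *
        generalize sA (Λ / lam) b n = A at *
        generalize sA (Λ / lam) b' n = A' at *
        generalize nm (Pu g n β) = U at *
        generalize nm (Pu g n γ) = U' at *
        generalize nm (Pu g (n + 1) β) = U1 at *
        generalize nm (Pu g (n + 1) γ) = U2 at *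
        generalize nm (Pg g n β) = G1 at *
        generalize nm (Pg g n γ) = G2 at *
        have m1 : (S1 + U1) * (U2 + G2) ≤ (A + U + U) * (U' + U') :=
          mul_le_mul (by linarith) (by linarith) (by positivity) (by positivity)
        have m2 : (S2 + U2) * (U1 + G1) ≤ (A' + U' + U') * (U + U) :=
          mul_le_mul (by linarith) (by linarith) (by positivity) (by positivity)
        have p1 : 0 ≤ A * Zb' := by positivity
        have p2 : 0 ≤ A' * Zb := by positivity
        have p3 : 0 ≤ A * U' := by positivity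
        have p4 : 0 ≤ A' * U := by positivity
        have p6 : 0 ≤ U * Zb' := by positivity
        have p7 : 0 ≤ U' * Zb := by positivity
        have q1 : (A + U + U) * (U' + U') = 2 * (A * U') + 4 * (U * U') := by ring
        have q2 : (A' + U' + U') * (U + U) = 2 * (A' * U) + 4 * (U * U') := by ring
        have q3 : 4 * ((A + U) * (U' + Zb') + (A' + U') * (U + Zb)) = 4 * (A * U') + 4 * (A * Zb')
          + 8 * (U * U') + 4 * (U * Zb') + 4 * (A' * U) + 4 * (A' * Zb) + 4 * (U' * Zb) := by ring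
        rw [q3]
        rw [q1] at m1
        rw [q2] at m2
        linarith
      have hXX0 := XX_nn (g := g) hs (β := β) (γ := γ) (b := fun p => nm (Pg g p β))
        (b' := fun p => nm (Pg g p γ)) (fun p => nm_nn _) (fun p => nm_nn _) (n + 1)
      have hle1 := hle (n + 1)
      have hn1 := nm_nn (Pg g (n + 1) α)
      rw [hs.L_succ]
      have hlam0 : 0 ≤ lam := by linarith
      calc 3 * M * nm (Pg g (n + 1) α) * (lam * L n *
          XX g Λ lam β γ (fun p => nm (Pg g p β)) (fun p => nm (Pg g p γ)) (n + 1)) ≤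
          3 * M * nm α * (lam * L n * (4 * XX g Λ lam β γ b b' n)) := by gcongr
        _ = _ := by ring
    refine (add_le_add t1 t2).trans ?_
    have h3 : 3 * M ≤ 3 * M * lam := le_mul_of_one_le_right (by positivity) hlam
    have h4 : 3 * M * nm α * (L n * XX g Λ lam β γ b b' n) ≤
        3 * M * lam * nm α * (L n * XX g Λ lam β γ b b' n) := by gcongr
    have h5 : 15 * M * lam * nm α * (L n * XX g Λ lam β γ b b' n) =
        3 * M * lam * nm α * (L n * XX g Λ lam β γ b b' n) +
        12 * M * lam * nm α * (L n * XX g Λ lam β γ b b' n) := by ring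
    rw [h5]
    linarith

end Pool.Agent.Y261.SK
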